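import Pool.Agent.Helper97_WHC.Stmt

/-!
# Squad WHC, row CSF (helper59): the density theorem in harmonic weights
-/

set_option autoImplicit false

open scoped BigOperators

namespace Pool.Agent.WHC.H59

open Pool.Agent.DEN Pool.Agent.TMP Pool.Agent.WHT

/-- Cauchy-Schwarz for a sum of `n` terms -/
theorem norm_sum_sq {ι : Type*} [Fintype ι] (x : ι → ℂ) :
    ‖∑ i, x i‖ ^ 2 ≤ (Fintype.card ι : ℝ) * ∑ i, ‖x i‖ ^ 2 := by
  have h1 : ‖∑ i, x i‖ ≤ ∑ i, ‖x i‖ := norm_sum_le _ _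
  have h2 : (∑ i, ‖x i‖) ^ 2 ≤ (Fintype.card ι : ℝ) * ∑ i, ‖x i‖ ^ 2 := by
    have := sq_sum_le_card_mul_sum_sq (s := Finset.univ) (f := fun i => ‖x i‖)
    simpa [Finset.card_univ] using this
  exact (pow_le_pow_left₀ (norm_nonneg _) h1 2).trans h2

theorem ng_ex {r : ℕ} (l : Fin r → ℤ) : ng r (ex l) = ex (-l) := by
  unfold ng ex
  rw [AddMonoidAlgebra.domCongr_single]
  rfl

theorem csf (hKap : KapStmt) (hAlg : AlgStmt) (hWey : WeyStmt) (hGdc : GdcStmt)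
    (hVol : VolStmt) (hBsl : BslStmt) : CsfStmt := by
  intro r C hC
  obtain ⟨R₀, hR₀⟩ := hAlg r C hC (fun T => 2 * (rT T C : ℤ))
  refine ⟨max 0 R₀, le_max_left _ _, ?_⟩
  intro K _ _ N hN χ hχ c hc M hM n f hf ψ hψ l₀ l hl₀ hl
  have hN0 : N ≠ 0 := by
    rintro rfl
    rw [Polynomial.natDegree_zero] at hN
    exact lt_irrefl 0 hN
  obtain ⟨y, hy1, hy2, hy3⟩ := hKap r C hC K N hN0 χ hχ c hc M hM
  obtain ⟨hWfin, -, hWey3, -⟩ := hWey r C hC
  obtain ⟨hG1, hG2⟩ := hGdc r C hC K N χ hχ c hc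
  have hWft : Fintype (Wg hC) := Fintype.ofFinite _
  have hB0 : (0 : ℤ) ≤ max 0 R₀ := le_max_left _ _
  have hBR : R₀ ≤ max 0 R₀ := le_max_right _ _
  -- the relation
  have hrel := hR₀ y hy1 hy2 l₀ l (fun i => hBR.trans (hl₀ i).1)
    (fun w hw i => hBR.trans (hl w hw i).1)
  rw [finsum_eq_sum_of_fintype, finsum_eq_sum_of_fintype] at hrel
  have hinv : ∀ j, ∀ γ ∈ U0 C N, ∀ x, f j (γ • x) = f j x := fun j γ hγ x =>
    (hf.1 j).1 γ hγ.2 x
  have hwv : ∀ j (l' : Fin r → ℤ), IsDom C l' →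
      wv hC N χ (M - l') (f j) = ψ j (ng r (y l')) * wv hC N χ M (f j) := fun j l' hl' =>
    hy3 (f j) (ψ j) (hinv j) (hψ j) l' hl'
  have hdom₀ : IsDom C l₀ := fun i => hB0.trans (hl₀ i).1
  have hdomw : ∀ w : Wg hC, IsDom C (l + w.1 l₀ - dl C w.1) := fun w i =>
    hB0.trans (hl w.1 w.2 i).1
  -- the relation for the coefficients
  have hrel2 : ∀ j, (∑ w : Wg hC, ψ j (ex (-(w.1 l)))) * wv hC N χ (M - l₀) (f j) =
      ∑ w : Wg hC, (sg w.1 : ℂ) * wv hC N χ (M - (l + w.1 l₀ - dl C w.1)) (f j) := by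
    intro j
    have h1 := congrArg (fun a => ψ j (ng r a) * wv hC N χ M (f j)) hrel
    simp only [map_mul, map_sum, map_intCast, ng_ex] at h1
    rw [hwv j l₀ hdom₀, ← mul_assoc, h1, Finset.sum_mul]
    apply Finset.sum_congr rfl
    intro w _
    rw [hwv j _ (hdomw w), mul_assoc]
  -- the volume
  set q : ℝ := (Nat.card K : ℝ) with hq
  have hqpos : 0 < q := by
    rw [hq]
    exact_mod_cast Nat.card_pos
  set V : ℝ := vol hC N (M - l₀) * q ^ (2 * hv (M - l₀)) with hV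
  have hbound : ∀ w : Wg hC,
      ∑ j, ‖wv hC N χ (M - (l + w.1 l₀ - dl C w.1)) (f j)‖ ^ 2 ≤ V := by
    intro w
    set m := M - (l + w.1 l₀ - dl C w.1) with hm
    have hmc : ∀ i, 0 ≤ ip C (al i) m ∧ ip C (al i) m ≤ c i := by
      intro i
      have h1 := hl w.1 w.2 i
      rw [hm, ip_sub_right, hM]
      constructor
      · linarith [h1.2]
      · linarith [h1.1]
    have hgood : WHT.Good hC χ m := (hG2 m).2 ⟨fun i => (hmc i).1, fun i => (hmc i).2⟩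
    have hgu : GoodU hC χ m := (hG1 m).2 fun i => (hmc i).2
    have h1 := hBsl r C hC K N hN χ hχ m hgood n f hf
    have h2 : ∀ j, ‖wv hC N χ m (f j)‖ ^ 2 = q ^ (2 * hv m) * ‖wh hC N χ m (f j)‖ ^ 2 := by
      intro j
      unfold wv
      rw [if_pos hgu, norm_mul, norm_zpow, Complex.norm_natCast, mul_pow, ← zpow_natCast,
        ← zpow_mul, mul_comm (hv m)]
      rfl
    simp only [h2]
    rw [← Finset.mul_sum]
    have h3 := (hVol r C hC K N hN0 m (M - l₀)).2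
    calc q ^ (2 * hv m) * ∑ j, ‖wh hC N χ m (f j)‖ ^ 2
        ≤ q ^ (2 * hv m) * vol hC N m :=
          mul_le_mul_of_nonneg_left h1 (zpow_nonneg hqpos.le _)
      _ = V := by rw [mul_comm, h3]
  have hgu₀ : GoodU hC χ (M - l₀) := (hG1 _).2 fun i => by
    have h1 := hl₀ i
    rw [ip_sub_right, hM]
    linarith [h1.1]
  have hwv0 : ∀ j, ‖wv hC N χ (M - l₀) (f j)‖ ^ 2 =
      q ^ (2 * hv (M - l₀)) * ‖wh hC N χ (M - l₀) (f j)‖ ^ 2 := by
    intro j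
    unfold wv
    rw [if_pos hgu₀, norm_mul, norm_zpow, Complex.norm_natCast, mul_pow, ← zpow_natCast,
      ← zpow_mul, mul_comm (hv (M - l₀))]
    rfl
  have hsg : ∀ w : Wg hC, ‖(sg w.1 : ℂ)‖ = 1 := by
    intro w
    rcases (hWey3 w.1 w.2).2.2 with h | h
    · rw [h, Int.cast_one, norm_one]
    · rw [h, Int.cast_neg, Int.cast_one, norm_neg, norm_one]
  have hmain : ∑ j, ‖∑ w : Wg hC, ψ j (ex (-(w.1 l)))‖ ^ 2 * ‖wv hC N χ (M - l₀) (f j)‖ ^ 2 ≤
      (Fintype.card (Wg hC) : ℝ) ^ 2 * V := by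
    calc ∑ j, ‖∑ w : Wg hC, ψ j (ex (-(w.1 l)))‖ ^ 2 * ‖wv hC N χ (M - l₀) (f j)‖ ^ 2
        = ∑ j, ‖∑ w : Wg hC,
            (sg w.1 : ℂ) * wv hC N χ (M - (l + w.1 l₀ - dl C w.1)) (f j)‖ ^ 2 := by
          apply Finset.sum_congr rfl
          intro j _
          rw [← mul_pow, ← norm_mul, hrel2 j]
      _ ≤ ∑ j, (Fintype.card (Wg hC) : ℝ) * ∑ w : Wg hC,
            ‖wv hC N χ (M - (l + w.1 l₀ - dl C w.1)) (f j)‖ ^ 2 := by
          apply Finset.sum_le_sum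
          intro j _
          refine (norm_sum_sq _).trans (le_of_eq ?_)
          congr 1
          apply Finset.sum_congr rfl
          intro w _
          rw [norm_mul, hsg, one_mul]
      _ = (Fintype.card (Wg hC) : ℝ) * ∑ w : Wg hC, ∑ j,
            ‖wv hC N χ (M - (l + w.1 l₀ - dl C w.1)) (f j)‖ ^ 2 := by
          rw [← Finset.mul_sum, Finset.sum_comm]
      _ ≤ (Fintype.card (Wg hC) : ℝ) * ∑ _w : Wg hC, V := by
          apply mul_le_mul_of_nonneg_left _ (Nat.cast_nonneg _)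
          exact Finset.sum_le_sum fun w _ => hbound w
      _ = (Fintype.card (Wg hC) : ℝ) ^ 2 * V := by
          rw [Finset.sum_const, Finset.card_univ, nsmul_eq_mul]
          ring
  have hqp : 0 < q ^ (2 * hv (M - l₀)) := zpow_pos hqpos _
  simp only [finsum_eq_sum_of_fintype]
  rw [Nat.card_eq_fintype_card]
  have hfin : q ^ (2 * hv (M - l₀)) * ∑ j, ‖∑ w : Wg hC, ψ j (ex (-(w.1 l)))‖ ^ 2 *
      ‖wh hC N χ (M - l₀) (f j)‖ ^ 2 ≤
      q ^ (2 * hv (M - l₀)) * ((Fintype.card (Wg hC) : ℝ) ^ 2 * vol hC N (M - l₀)) := by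
    calc q ^ (2 * hv (M - l₀)) * ∑ j, ‖∑ w : Wg hC, ψ j (ex (-(w.1 l)))‖ ^ 2 *
          ‖wh hC N χ (M - l₀) (f j)‖ ^ 2
        = ∑ j, ‖∑ w : Wg hC, ψ j (ex (-(w.1 l)))‖ ^ 2 *
            ‖wv hC N χ (M - l₀) (f j)‖ ^ 2 := by
          rw [Finset.mul_sum]
          apply Finset.sum_congr rfl
          intro j _
          rw [hwv0 j]
          ring
      _ ≤ (Fintype.card (Wg hC) : ℝ) ^ 2 * V := hmain
      _ = q ^ (2 * hv (M - l₀)) * ((Fintype.card (Wg hC) : ℝ) ^ 2 * vol hC N (M - l₀)) := by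
          rw [hV]
          ring
  exact le_of_mul_le_mul_left hfin hqp

end Pool.Agent.WHC.H59
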